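import Pool.Agent.H.MP_773c46_pr.A

set_option autoImplicit false

namespace Pool.Agent.Results.MP_773c46_pr.No

open Pool.Agent.H.MP_773c46_pr MeasureTheory Filter Finset

noncomputable def q : ℤ → ℝ :=
  Function.extend (fun k : ℕ => (2 : ℤ) ^ k) (fun k => (1 / 2 : ℝ) ^ (k + 2)) 0
noncomputable def e : ℤ → ℕ := Function.extend (fun k : ℕ => (2 : ℤ) ^ k) (fun k => 2 ^ k) 0

lemma inj : Function.Injective (fun k : ℕ => (2 : ℤ) ^ k) :=
  pow_right_injective₀ (by norm_num) (by norm_num)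

lemma q0 (z : ℤ) : 0 ≤ q z := by
  classical
  unfold q
  rw [Function.extend_def]
  split_ifs
  · positivity
  · rfl

lemma q1 : HasSum q (1 / 2) := by
  rw [← inj.hasSum_iff (f := q) (fun x hx => by
    unfold q; rw [Function.extend_apply' _ _ _ hx]; rfl)]
  have := hasSum_geometric_two.mul_right ((1 / 2 : ℝ) ^ 2)
  have e1 : (q ∘ fun k : ℕ => (2 : ℤ) ^ k) = fun i => (1 / 2 : ℝ) ^ i * (1 / 2) ^ 2 := by
    funext k
    simp only [Function.comp, q]
    rw [inj.extend_apply, pow_add]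
  rw [e1, show (1 / 2 : ℝ) = 2 * (1 / 2) ^ 2 by norm_num]
  simpa only [← show (1 / 2 : ℝ) = 2 * (1 / 2) ^ 2 by norm_num] using this

lemma dens (n : ℕ) : ∑ x ∈ Icc (-(n : ℤ)) n, e x ≤ 2 * n + 1 := by
  have h1 : ∑ x ∈ Icc (-(n : ℤ)) n, e x ≤
      ∑ x ∈ (range n.size).image (fun k : ℕ => (2 : ℤ) ^ k), e x := by
    refine sum_le_sum_of_ne_zero fun x hx h => ?_
    by_cases hk : ∃ k : ℕ, (2 : ℤ) ^ k = x
    · obtain ⟨k, rfl⟩ := hk
      refine mem_image.2 ⟨k, mem_range.2 (Nat.lt_size.2 ?_), rfl⟩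
      exact_mod_cast (mem_Icc.1 hx).2
    · exact absurd (Function.extend_apply' _ _ _ hk) h
  rw [sum_image (inj.injOn)] at h1
  simp only [e, inj.extend_apply] at h1
  have h2 : ∀ m, ∑ k ∈ range m, 2 ^ k + 1 = 2 ^ m := by
    intro m
    induction m with
    | zero => simp
    | succ m ih => rw [sum_range_succ, pow_succ]; omega
  have h3 := h2 n.size
  rcases h : n.size with _ | m
  · rw [h, sum_range_zero] at h1; simp only [e]; omega
  · have : 2 ^ m ≤ n := Nat.lt_size.1 (by omega)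
    rw [h] at h1 h3
    rw [pow_succ] at h3
    simp only [e]
    omega

lemma low (m : ℕ) : (m : ℝ) / 4 ≤
    ∑ x ∈ Icc (-((2 ^ m : ℕ) : ℤ)) (2 ^ m : ℕ), (e x : ℝ) * (q (-x) + q (- -x)) := by
  refine le_trans ?_ (sum_le_sum_of_subset_of_nonneg
    (s := (range m).image (fun k : ℕ => (2 : ℤ) ^ k)) ?_
    (fun x _ _ => mul_nonneg (by positivity) (add_nonneg (q0 _) (q0 _))))
  · rw [sum_image (inj.injOn)]
    have : (m : ℝ) / 4 = ∑ _k ∈ range m, (1 / 4 : ℝ) := by simp; ring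
    rw [this]
    refine sum_le_sum fun k _ => ?_
    have a : (e (2 ^ k) : ℝ) * q (2 ^ k) = 1 / 4 := by
      simp only [e, q, inj.extend_apply]
      push_cast
      rw [pow_add, ← mul_assoc, ← mul_pow]
      norm_num
    rw [neg_neg, mul_add, a]
    exact le_add_of_nonneg_left (mul_nonneg (by positivity) (q0 _))
  · intro x hx
    obtain ⟨k, hk, rfl⟩ := mem_image.1 hx
    have := pow_le_pow_right₀ (by norm_num : (1 : ℤ) ≤ 2) (mem_range.1 hk).le
    have h2 : (0 : ℤ) < 2 ^ k := by positivity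
    rw [mem_Icc]
    push_cast
    constructor <;> linarith

theorem result : ∃ (g : ℕ → ℝ) (p : ℤ → ℝ) (η : ℤ → ℕ),
    g 0 = 0 ∧ Monotone g ∧ Tendsto g atTop atTop ∧
    (∀ z, 0 ≤ p z) ∧ HasSum p 1 ∧ (∀ z, p (-z) = p z) ∧ 0 < p 1 ∧
    (∀ n : ℕ, ∑ x ∈ Icc (-(n : ℤ)) n, η x ≤ 2 * n + 1) ∧
    ∀ t : ℝ, 0 < t → ∀ (Ω : Type) [MeasurableSpace Ω] (μ : Measure Ω) [IsProbabilityMeasure μ]
      (ξ : ℕ → Ω → (ℤ →₀ ℕ)), (∀ n, @Measurable _ _ _ ⊤ (ξ n)) →
      (∀ n (f : (ℤ →₀ ℕ) → ℝ), (∃ C, ∀ ζ, |f ζ| ≤ C) →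
        ∫ ω, f (ξ n ω) ∂μ = sg g p t f (trunc η n)) →
      ∀ᵐ ω ∂μ, ⨆ n, (ξ n ω 0 : ℕ∞) = ⊤ := by
  have h0 : ∀ z, 0 ≤ q z + q (-z) := fun z => add_nonneg (q0 _) (q0 _)
  have h1 : HasSum (fun z => q z + q (-z)) 1 := by
    have := q1.add ((Equiv.neg ℤ).hasSum_iff.2 q1)
    norm_num at this
    exact this
  refine ⟨Nat.cast, fun z => q z + q (-z), e, by simp, Nat.mono_cast,
    tendsto_natCast_atTop_atTop, h0, h1, fun z => by simp [add_comm], ?_, dens, ?_⟩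
  · have : q (2 ^ 0) = (1 / 2) ^ (0 + 2) := inj.extend_apply _ _ 0
    have h2 := q0 (-1)
    norm_num at this
    simp only [this]
    positivity
  intro t ht Ω _ μ _ ξ hm hl
  have hF : ∀ ζ, 0 ≤ F ζ ∧ |F ζ| ≤ 1 := fun ζ => by
    unfold F
    rw [abs_of_nonneg (by positivity)]
    exact ⟨by positivity, pow_le_one₀ (by norm_num) (by norm_num)⟩
  have key : ∀ M : ℕ, μ {ω | ∀ n, ξ n ω 0 ≤ M} = 0 := by
    intro M
    have hb : ∀ m : ℕ, (1 / 2 : ℝ) ^ M * μ.real {ω | ∀ n, ξ n ω 0 ≤ M} ≤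
        Real.exp (-(t * Real.exp (-t) / 2 * (m / 4))) := by
      intro m
      have hi : Integrable (fun ω => F (ξ (2 ^ m) ω)) μ :=
        Integrable.of_bound ((measurable_from_top (f := F)).comp (hm _)).aestronglyMeasurable 1
          (Eventually.of_forall fun ω => (hF _).2)
      have a := mul_meas_ge_le_integral_of_nonneg (Eventually.of_forall fun ω => (hF _).1) hi
        ((1 / 2 : ℝ) ^ M)
      rw [hl _ F ⟨1, fun ζ => (hF ζ).2⟩] at a
      refine le_trans (mul_le_mul_of_nonneg_left (measureReal_mono fun ω hω => ?_)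
        (by positivity)) (a.trans ((sg_le h0 h1 ht.le e _).trans ?_))
      · exact pow_le_pow_of_le_one (a := (1 / 2 : ℝ)) (by norm_num) (by norm_num) (hω _)
      · refine Real.exp_le_exp.2 (neg_le_neg (mul_le_mul_of_nonneg_left (low m) (by positivity)))
    have hlim : Tendsto (fun m : ℕ => Real.exp (-(t * Real.exp (-t) / 2 * (m / 4)))) atTop
        (nhds 0) :=
      Real.tendsto_exp_neg_atTop_nhds_zero.comp
        ((tendsto_natCast_atTop_atTop.atTop_div_const (by norm_num)).const_mul_atTop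
          (by positivity))
    have := ge_of_tendsto' hlim hb
    have h3 : μ.real {ω | ∀ n, ξ n ω 0 ≤ M} = 0 :=
      le_antisymm (le_of_mul_le_mul_left (by simpa using this)
        (by positivity : (0 : ℝ) < (1 / 2) ^ M)) measureReal_nonneg
    exact (measureReal_eq_zero_iff).1 h3
  have : ∀ᵐ ω ∂μ, ∀ M : ℕ, ¬ ∀ n, ξ n ω 0 ≤ M := ae_all_iff.2 fun M => by
    rw [ae_iff]; simpa using key M
  filter_upwards [this] with ω hω
  refine ENat.eq_top_iff_forall_gt.2 fun M => ?_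
  obtain ⟨n, hn⟩ := not_forall.1 (hω M)
  exact lt_of_lt_of_le (by exact_mod_cast not_le.1 hn) (le_iSup (fun n => (ξ n ω 0 : ℕ∞)) n)

end Pool.Agent.Results.MP_773c46_pr.No
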